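import Mathlib.Topology.Sheaves.Presheaf
import Mathlib.Tactic.Monotonicity.Lemmas
import Mathlib.Algebra.Order.Star.Real
import Mathlib.Analysis.CStarAlgebra.Classes
import Mathlib.Analysis.SpecialFunctions.Integrals.Basic
import Mathlib.Analysis.Real.Pi.Bounds
import Mathlib.RingTheory.PiTensorProduct
import Mathlib.Order.CompletePartialOrder

/-!
A small Ingham-Haraux toolkit for finite trigonometric sums with real frequencies.
-/

namespace Pool.Agent.MP_8d8cf3_an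

open Complex MeasureTheory

/-- `exp (i l t)`. -/
noncomputable def ex (l t : ℝ) : ℂ := exp (I * (l : ℂ) * (t : ℂ))

theorem norm_ex (l t : ℝ) : ‖ex l t‖ = 1 := by
  have : I * (l : ℂ) * (t : ℂ) = ((l * t : ℝ) : ℂ) * I := by push_cast; ring
  rw [ex, this, norm_exp_ofReal_mul_I]

theorem ex_add (l s t : ℝ) : ex l (s + t) = ex l s * ex l t := by
  rw [ex, ex, ex, ← exp_add]; congr 1; push_cast; ring

theorem ex_zero (t : ℝ) : ex 0 t = 1 := by simp [ex]

theorem ex_mul_conj (l m t : ℝ) : ex l t * (starRingEnd ℂ) (ex m t) = ex (l - m) t := by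
  rw [ex, ex, ex, ← exp_conj, ← exp_add]
  congr 1
  simp only [map_mul, conj_I, conj_ofReal]
  push_cast; ring

theorem continuous_ex (l : ℝ) : Continuous (ex l) := by
  unfold ex; fun_prop

theorem norm_integral_ex (s T : ℝ) (hs : s ≠ 0) : ‖∫ t in (0 : ℝ)..T, ex s t‖ ≤ 2 / |s| := by
  have hc : I * (s : ℂ) ≠ 0 := mul_ne_zero I_ne_zero (by exact_mod_cast hs)
  have := integral_exp_mul_complex (a := 0) (b := T) hc
  unfold ex
  rw [this, norm_div]
  have h1 : ‖I * (s : ℂ)‖ = |s| := by simp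
  rw [h1]
  gcongr
  have h2 := norm_ex s T
  have h3 := norm_ex s 0
  unfold ex at h2 h3
  calc _ ≤ _ := norm_sub_le _ _
    _ = 2 := by rw [h2, h3]; norm_num

/-- a finite trigonometric sum. -/
noncomputable def trig (F : Finset ℝ) (d : ℝ → ℂ) (t : ℝ) : ℂ := ∑ l ∈ F, d l * ex l t

theorem continuous_trig (F : Finset ℝ) (d : ℝ → ℂ) : Continuous (trig F d) := by
  unfold trig
  exact continuous_finsetSum _ fun l _ => continuous_const.mul (continuous_ex l)

/-- inverse inequality on `[0,T]` for frequencies in `Λ`. -/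
def Inv (Λ : Set ℝ) (T : ℝ) : Prop :=
  ∃ C : ℝ, 0 < C ∧ ∀ (F : Finset ℝ) (d : ℝ → ℂ), (↑F : Set ℝ) ⊆ Λ →
    ∑ l ∈ F, ‖d l‖ ^ 2 ≤ C * ∫ t in (0 : ℝ)..T, ‖trig F d t‖ ^ 2

/-- direct inequality on `[0,T]` for frequencies in `Λ`. -/
def Dir (Λ : Set ℝ) (T : ℝ) : Prop :=
  ∃ C : ℝ, 0 < C ∧ ∀ (F : Finset ℝ) (d : ℝ → ℂ), (↑F : Set ℝ) ⊆ Λ →
    ∫ t in (0 : ℝ)..T, ‖trig F d t‖ ^ 2 ≤ C * ∑ l ∈ F, ‖d l‖ ^ 2

theorem integral_trig_sq (F : Finset ℝ) (d : ℝ → ℂ) (T : ℝ) :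
    ∫ t in (0 : ℝ)..T, ‖trig F d t‖ ^ 2 =
      ∑ l ∈ F, ∑ m ∈ F,
        (d l * (starRingEnd ℂ) (d m) * ∫ t in (0 : ℝ)..T, ex (l - m) t).re := by
  have h1 : ∀ t, (((‖trig F d t‖ ^ 2 : ℝ)) : ℂ) =
      ∑ l ∈ F, ∑ m ∈ F, d l * (starRingEnd ℂ) (d m) * ex (l - m) t := by
    intro t
    rw [← Complex.normSq_eq_norm_sq, ← Complex.mul_conj]
    unfold trig
    rw [map_sum, Finset.sum_mul_sum]
    refine Finset.sum_congr rfl fun l _ => Finset.sum_congr rfl fun m _ => ?_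
    rw [map_mul, ← ex_mul_conj]; ring
  have h2 : (((∫ t in (0 : ℝ)..T, ‖trig F d t‖ ^ 2 : ℝ)) : ℂ) =
      ∑ l ∈ F, ∑ m ∈ F, d l * (starRingEnd ℂ) (d m) * ∫ t in (0 : ℝ)..T, ex (l - m) t := by
    rw [← intervalIntegral.integral_ofReal]
    simp_rw [h1]
    rw [intervalIntegral.integral_finsetSum]
    · refine Finset.sum_congr rfl fun l _ => ?_
      rw [intervalIntegral.integral_finsetSum]
      · refine Finset.sum_congr rfl fun m _ => ?_
        rw [intervalIntegral.integral_const_mul]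
      · intro m _
        exact (continuous_const.mul (continuous_ex _)).intervalIntegrable _ _
    · intro l _
      exact (continuous_finsetSum _ fun m _ =>
        continuous_const.mul (continuous_ex _)).intervalIntegrable _ _
  have h3 := congrArg Complex.re h2
  rw [ofReal_re] at h3
  rw [h3, re_sum]
  refine Finset.sum_congr rfl fun l _ => ?_
  rw [re_sum]

theorem schur (Λ : Set ℝ) (η : ℝ)
    (h : ∀ l ∈ Λ, ∀ F : Finset ℝ, (↑F : Set ℝ) ⊆ Λ → ∑ m ∈ F, 1 / |l - m| ≤ η)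
    (T : ℝ) (F : Finset ℝ) (d : ℝ → ℂ) (hF : (↑F : Set ℝ) ⊆ Λ) :
    |(∫ t in (0 : ℝ)..T, ‖trig F d t‖ ^ 2) - T * ∑ l ∈ F, ‖d l‖ ^ 2| ≤
      2 * η * ∑ l ∈ F, ‖d l‖ ^ 2 := by
  classical
  have e1 : T * ∑ l ∈ F, ‖d l‖ ^ 2 =
      ∑ l ∈ F, ∑ m ∈ F, if l = m then T * ‖d l‖ ^ 2 else 0 := by
    rw [Finset.mul_sum]
    refine Finset.sum_congr rfl fun l hl => ?_
    rw [Finset.sum_ite_eq, if_pos hl]
  rw [integral_trig_sq, e1, ← Finset.sum_sub_distrib]
  have hb : ∀ l m : ℝ,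
      |(d l * (starRingEnd ℂ) (d m) * ∫ t in (0 : ℝ)..T, ex (l - m) t).re -
        (if l = m then T * ‖d l‖ ^ 2 else 0)| ≤
        ‖d l‖ ^ 2 * (1 / |l - m|) + ‖d m‖ ^ 2 * (1 / |m - l|) := by
    intro l m
    by_cases hlm : l = m
    · subst hlm
      simp only [sub_self, ex_zero, if_true, abs_zero, div_zero, mul_zero, add_zero]
      rw [Complex.mul_conj, Complex.normSq_eq_norm_sq]
      simp only [intervalIntegral.integral_const, sub_zero, real_smul, mul_one]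
      rw [← ofReal_mul, ofReal_re]
      simp [mul_comm]
    · rw [if_neg hlm, sub_zero]
      have hs : l - m ≠ 0 := sub_ne_zero.mpr hlm
      have hpos : 0 < |l - m| := abs_pos.mpr hs
      calc _ ≤ ‖d l * (starRingEnd ℂ) (d m) * ∫ t in (0 : ℝ)..T, ex (l - m) t‖ :=
            abs_re_le_norm _
        _ = ‖d l‖ * ‖d m‖ * ‖∫ t in (0 : ℝ)..T, ex (l - m) t‖ := by
            rw [norm_mul, norm_mul, Complex.norm_conj]
        _ ≤ ‖d l‖ * ‖d m‖ * (2 / |l - m|) := by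
            gcongr
            exact norm_integral_ex _ _ hs
        _ = (2 * ‖d l‖ * ‖d m‖) * (1 / |l - m|) := by ring
        _ ≤ (‖d l‖ ^ 2 + ‖d m‖ ^ 2) * (1 / |l - m|) := by
            gcongr
            exact two_mul_le_add_sq _ _
        _ = _ := by rw [abs_sub_comm m l]; ring
  have hsum : ∑ l ∈ F, ‖d l‖ ^ 2 * ∑ m ∈ F, 1 / |l - m| ≤ η * ∑ l ∈ F, ‖d l‖ ^ 2 := by
    rw [Finset.mul_sum]
    refine Finset.sum_le_sum fun l hl => ?_
    rw [mul_comm η]
    exact mul_le_mul_of_nonneg_left (h l (hF hl) F hF) (by positivity)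
  calc _ ≤ ∑ l ∈ F, |(∑ m ∈ F,
          (d l * (starRingEnd ℂ) (d m) * ∫ t in (0 : ℝ)..T, ex (l - m) t).re) -
          ∑ m ∈ F, if l = m then T * ‖d l‖ ^ 2 else 0| := Finset.abs_sum_le_sum_abs _ _
    _ ≤ ∑ l ∈ F, ∑ m ∈ F, (‖d l‖ ^ 2 * (1 / |l - m|) + ‖d m‖ ^ 2 * (1 / |m - l|)) := by
        refine Finset.sum_le_sum fun l _ => ?_
        rw [← Finset.sum_sub_distrib]
        exact (Finset.abs_sum_le_sum_abs _ _).trans (Finset.sum_le_sum fun m _ => hb l m)
    _ = ∑ l ∈ F, ‖d l‖ ^ 2 * ∑ m ∈ F, 1 / |l - m| +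
          ∑ l ∈ F, ‖d l‖ ^ 2 * ∑ m ∈ F, 1 / |l - m| := by
        simp_rw [Finset.sum_add_distrib, Finset.mul_sum]
        congr 1
        rw [Finset.sum_comm]
    _ ≤ _ := by linarith

theorem dir_of_schur (Λ : Set ℝ) (η : ℝ) (hη : 0 ≤ η)
    (h : ∀ l ∈ Λ, ∀ F : Finset ℝ, (↑F : Set ℝ) ⊆ Λ → ∑ m ∈ F, 1 / |l - m| ≤ η)
    (T : ℝ) (hT : 0 < T) : Dir Λ T := by
  refine ⟨T + 2 * η, by positivity, fun F d hF => ?_⟩
  have := (abs_le.mp (schur Λ η h T F d hF)).2
  linarith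

theorem inv_of_schur (Λ : Set ℝ) (η : ℝ)
    (h : ∀ l ∈ Λ, ∀ F : Finset ℝ, (↑F : Set ℝ) ⊆ Λ → ∑ m ∈ F, 1 / |l - m| ≤ η)
    (T : ℝ) (hT : 2 * η < T) : Inv Λ T := by
  have hp : 0 < T - 2 * η := by linarith
  refine ⟨1 / (T - 2 * η), by positivity, fun F d hF => ?_⟩
  have := (abs_le.mp (schur Λ η h T F d hF)).1
  rw [one_div, inv_mul_eq_div, le_div_iff₀ hp]
  linarith

theorem norm_add_sq_le (u v : ℂ) : ‖u + v‖ ^ 2 ≤ 2 * ‖u‖ ^ 2 + 2 * ‖v‖ ^ 2 := by
  have h1 : ‖u + v‖ ^ 2 ≤ (‖u‖ + ‖v‖) ^ 2 :=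
    pow_le_pow_left₀ (norm_nonneg _) (norm_add_le _ _) 2
  nlinarith [sq_nonneg (‖u‖ - ‖v‖)]

theorem norm_sub_sq_le (u v : ℂ) : ‖u - v‖ ^ 2 ≤ 2 * ‖u‖ ^ 2 + 2 * ‖v‖ ^ 2 := by
  have := norm_add_sq_le u (-v)
  rwa [norm_neg, ← sub_eq_add_neg] at this

theorem integral_add_sq_le (f g : ℝ → ℂ) (hf : Continuous f) (hg : Continuous g) (T : ℝ)
    (hT : 0 ≤ T) :
    ∫ t in (0 : ℝ)..T, ‖f t + g t‖ ^ 2 ≤
      2 * (∫ t in (0 : ℝ)..T, ‖f t‖ ^ 2) + 2 * ∫ t in (0 : ℝ)..T, ‖g t‖ ^ 2 := by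
  have i1 : IntervalIntegrable (fun t => 2 * ‖f t‖ ^ 2) volume 0 T :=
    (by fun_prop : Continuous fun t => 2 * ‖f t‖ ^ 2).intervalIntegrable _ _
  have i2 : IntervalIntegrable (fun t => 2 * ‖g t‖ ^ 2) volume 0 T :=
    (by fun_prop : Continuous fun t => 2 * ‖g t‖ ^ 2).intervalIntegrable _ _
  rw [← intervalIntegral.integral_const_mul, ← intervalIntegral.integral_const_mul,
    ← intervalIntegral.integral_add i1 i2]
  refine intervalIntegral.integral_mono_on hT ?_ (i1.add i2) fun t _ => norm_add_sq_le _ _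
  exact (by fun_prop : Continuous fun t => ‖f t + g t‖ ^ 2).intervalIntegrable _ _

theorem integral_sq_mono (f : ℝ → ℂ) (hf : Continuous f) (a b T : ℝ) (ha : 0 ≤ a) (hab : a ≤ b)
    (hb : b ≤ T) :
    ∫ t in a..b, ‖f t‖ ^ 2 ≤ ∫ t in (0 : ℝ)..T, ‖f t‖ ^ 2 := by
  refine intervalIntegral.integral_mono_interval ha hab hb ?_ ?_
  · exact Filter.Eventually.of_forall fun t => by positivity
  · exact (by fun_prop : Continuous fun t => ‖f t‖ ^ 2).intervalIntegrable _ _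

/-- the shifted difference has energy at most four times the energy on the longer interval. -/
theorem integral_shift_le (f : ℝ → ℂ) (hf : Continuous f) (c : ℂ) (hc : ‖c‖ = 1) (T δ h : ℝ)
    (hT : 0 ≤ T) (h0 : 0 ≤ h) (h1 : h ≤ δ) :
    ∫ t in (0 : ℝ)..T, ‖f (t + h) - c * f t‖ ^ 2 ≤ 4 * ∫ t in (0 : ℝ)..(T + δ), ‖f t‖ ^ 2 := by
  have a1 := integral_add_sq_le (fun t => f (t + h)) (fun t => -(c * f t)) (by fun_prop)
    (by fun_prop) T hT
  simp only [← sub_eq_add_neg, norm_neg, norm_mul, hc, one_mul] at a1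
  have a2 : ∫ t in (0 : ℝ)..T, ‖f (t + h)‖ ^ 2 = ∫ t in (0 + h)..(T + h), ‖f t‖ ^ 2 :=
    intervalIntegral.integral_comp_add_right (fun t => ‖f t‖ ^ 2) h
  have a3 := integral_sq_mono f hf (0 + h) (T + h) (T + δ) (by linarith) (by linarith)
    (by linarith)
  have a4 := integral_sq_mono f hf 0 T (T + δ) le_rfl hT (by linarith)
  linarith

theorem norm_ex_sub_sq (l m h : ℝ) : ‖ex l h - ex m h‖ ^ 2 = 2 - 2 * Real.cos ((l - m) * h) := by
  have e : ex l h - ex m h = (ex (l - m) h - 1) * ex m h := by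
    have : ex l h = ex (l - m) h * ex m h := by
      rw [ex, ex, ex, ← exp_add]; congr 1; push_cast; ring
    rw [this]; ring
  rw [e, norm_mul, norm_ex, mul_one]
  have : I * ((l - m : ℝ) : ℂ) * (h : ℂ) = (((l - m) * h : ℝ) : ℂ) * I := by push_cast; ring
  rw [ex, this, ← Complex.normSq_eq_norm_sq, Complex.normSq_apply]
  simp only [sub_re, exp_ofReal_mul_I_re, one_re, sub_im, exp_ofReal_mul_I_im, one_im, sub_zero]
  nlinarith [Real.sin_sq_add_cos_sq ((l - m) * h)]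

theorem avg_lower (γ δ : ℝ) (hγ : 0 < γ) (hδ : 0 < δ) :
    ∃ ε : ℝ, 0 < ε ∧ ∀ s : ℝ, γ ≤ |s| → ε ≤ ∫ h in (0 : ℝ)..δ, (2 - 2 * Real.cos (s * h)) := by
  refine ⟨min δ (4 / Real.pi ^ 2 * γ ^ 2 * (δ ^ 3 / 3)), lt_min hδ (by positivity), ?_⟩
  intro s hs
  have hs0 : 0 < |s| := lt_of_lt_of_le hγ hs
  have hsne : s ≠ 0 := abs_pos.mp hs0
  by_cases hc : |s| * δ ≤ Real.pi
  · refine (min_le_right _ _).trans ?_
    have e : 4 / Real.pi ^ 2 * γ ^ 2 * (δ ^ 3 / 3) =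
        ∫ h in (0 : ℝ)..δ, 4 / Real.pi ^ 2 * γ ^ 2 * h ^ 2 := by
      rw [intervalIntegral.integral_const_mul, integral_pow]
      norm_num
    rw [e]
    refine intervalIntegral.integral_mono_on hδ.le ?_ ?_ fun h hh => ?_
    · exact (by fun_prop : Continuous fun h : ℝ =>
        4 / Real.pi ^ 2 * γ ^ 2 * h ^ 2).intervalIntegrable _ _
    · exact (by fun_prop : Continuous fun h : ℝ =>
        2 - 2 * Real.cos (s * h)).intervalIntegrable _ _
    · have h1 : |s * h| ≤ Real.pi := by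
        rw [abs_mul, abs_of_nonneg hh.1]
        exact (mul_le_mul_of_nonneg_left hh.2 hs0.le).trans hc
      have h2 := Real.cos_le_one_sub_mul_cos_sq h1
      have h3 : γ ^ 2 ≤ s ^ 2 := by
        rw [← sq_abs s]
        exact pow_le_pow_left₀ hγ.le hs 2
      have h4 : 4 / Real.pi ^ 2 * γ ^ 2 * h ^ 2 ≤ 4 / Real.pi ^ 2 * s ^ 2 * h ^ 2 := by
        gcongr
      have h5 : 4 / Real.pi ^ 2 * s ^ 2 * h ^ 2 = 2 * (2 / Real.pi ^ 2 * (s * h) ^ 2) := by ring
      linarith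
  · refine (min_le_left _ _).trans ?_
    push Not at hc
    have i1 : IntervalIntegrable (fun h : ℝ => 2 * Real.cos (s * h)) volume 0 δ :=
      (by fun_prop : Continuous fun h : ℝ => 2 * Real.cos (s * h)).intervalIntegrable _ _
    rw [intervalIntegral.integral_sub (by simp) i1, intervalIntegral.integral_const_mul,
      intervalIntegral.integral_comp_mul_left (fun x => Real.cos x) hsne, integral_cos]
    simp only [intervalIntegral.integral_const, sub_zero, smul_eq_mul, mul_zero, Real.sin_zero]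
    have h1 : |s⁻¹ * Real.sin (s * δ)| ≤ δ / 2 := by
      rw [abs_mul, abs_inv]
      have h2 : |Real.sin (s * δ)| ≤ 1 := Real.abs_sin_le_one _
      have h3 : |s|⁻¹ ≤ δ / 2 := by
        rw [inv_le_iff_one_le_mul₀ hs0]
        nlinarith [Real.pi_gt_three]
      calc |s|⁻¹ * |Real.sin (s * δ)| ≤ |s|⁻¹ * 1 := by gcongr
        _ ≤ δ / 2 := by linarith
    have := (abs_le.mp h1).2
    linarith

theorem trig_erase (F : Finset ℝ) (d : ℝ → ℂ) (l0 t : ℝ) :
    trig F d t = (if l0 ∈ F then d l0 else 0) * ex l0 t + trig (F.erase l0) d t := by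
  unfold trig
  split_ifs with h
  · rw [Finset.add_sum_erase F (fun l => d l * ex l t) h]
  · rw [Finset.erase_eq_of_notMem h]; simp

theorem sum_erase_split (F : Finset ℝ) (d : ℝ → ℂ) (l0 : ℝ) :
    ∑ l ∈ F, ‖d l‖ ^ 2 = ‖if l0 ∈ F then d l0 else 0‖ ^ 2 + ∑ l ∈ F.erase l0, ‖d l‖ ^ 2 := by
  split_ifs with h
  · rw [Finset.add_sum_erase F (fun l => ‖d l‖ ^ 2) h]
  · rw [Finset.erase_eq_of_notMem h]; simp

theorem erase_subset {Λ : Set ℝ} {l0 : ℝ} {F : Finset ℝ} (hF : (↑F : Set ℝ) ⊆ insert l0 Λ) :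
    (↑(F.erase l0) : Set ℝ) ⊆ Λ := by
  intro l hl
  have hl' := Finset.mem_erase.mp hl
  rcases hF hl'.2 with h | h
  · exact absurd h hl'.1
  · exact h

theorem integral_single (c : ℂ) (l T : ℝ) :
    ∫ t in (0 : ℝ)..T, ‖c * ex l t‖ ^ 2 = T * ‖c‖ ^ 2 := by
  simp [norm_ex]

theorem Dir.insert {Λ : Set ℝ} {T : ℝ} (h : Dir Λ T) (hT : 0 < T) (l0 : ℝ) :
    Dir (insert l0 Λ) T := by
  obtain ⟨C, hC, H⟩ := h
  refine ⟨2 * T + 2 * C, by positivity, fun F d hF => ?_⟩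
  have h1 := H (F.erase l0) d (erase_subset hF)
  simp_rw [trig_erase F d l0]
  rw [sum_erase_split F d l0]
  have h2 := integral_add_sq_le (fun t => (if l0 ∈ F then d l0 else 0) * ex l0 t)
    (trig (F.erase l0) d) (continuous_const.mul (continuous_ex _)) (continuous_trig _ _) T hT.le
  rw [integral_single] at h2
  have p1 : 0 ≤ ‖if l0 ∈ F then d l0 else 0‖ ^ 2 := by positivity
  have p2 : 0 ≤ ∑ l ∈ F.erase l0, ‖d l‖ ^ 2 := by positivity
  nlinarith [mul_nonneg hT.le p2, mul_nonneg hC.le p1]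

/-- Haraux's argument: one more isolated frequency. -/
theorem Inv.insert {Λ : Set ℝ} {T : ℝ} (h : Inv Λ T) (hd : Dir Λ T) (hT : 0 < T) (l0 γ δ : ℝ)
    (hγ : 0 < γ) (hδ : 0 < δ) (hgap : ∀ l ∈ Λ, γ ≤ |l - l0|) :
    Inv (insert l0 Λ) (T + δ) := by
  obtain ⟨C, hC, H⟩ := h
  obtain ⟨D, hD, HD⟩ := hd
  obtain ⟨ε, hε, Hε⟩ := avg_lower γ δ hγ hδ
  set K : ℝ := δ * (4 * C) / ε with hK
  have hK0 : 0 < K := by positivity
  refine ⟨K + (2 + 2 * D * K) / T, by positivity, fun F d hF => ?_⟩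
  set J : ℝ := ∫ t in (0 : ℝ)..(T + δ), ‖trig F d t‖ ^ 2 with hJ
  set d0 : ℂ := if l0 ∈ F then d l0 else 0 with hd0
  have hF' := erase_subset hF
  have hJ0 : 0 ≤ J := intervalIntegral.integral_nonneg (by linarith) fun t _ => by positivity
  have step1 : ∀ h ∈ Set.Icc (0 : ℝ) δ,
      ∑ l ∈ F.erase l0, ‖d l‖ ^ 2 * (2 - 2 * Real.cos ((l - l0) * h)) ≤ 4 * C * J := by
    intro h hh
    have a1 := H (F.erase l0) (fun l => d l * (ex l h - ex l0 h)) hF'
    have a2 : ∀ t, trig (F.erase l0) (fun l => d l * (ex l h - ex l0 h)) t =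
        trig F d (t + h) - ex l0 h * trig F d t := by
      intro t
      rw [trig_erase F d l0, trig_erase F d l0 t]
      unfold trig
      rw [mul_add, Finset.mul_sum, ex_add]
      have : ∑ l ∈ F.erase l0, d l * (ex l h - ex l0 h) * ex l t =
          ∑ l ∈ F.erase l0, d l * ex l (t + h) - ∑ l ∈ F.erase l0, ex l0 h * (d l * ex l t) := by
        rw [← Finset.sum_sub_distrib]
        refine Finset.sum_congr rfl fun l _ => ?_
        rw [ex_add]; ring
      rw [this]; ring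
    simp_rw [a2, norm_mul, mul_pow, norm_ex_sub_sq] at a1
    have a3 := integral_shift_le (trig F d) (continuous_trig F d) (ex l0 h) (norm_ex _ _) T δ h
      hT.le hh.1 hh.2
    calc _ ≤ _ := a1
      _ ≤ C * (4 * J) := by gcongr
      _ = 4 * C * J := by ring
  have step2 : ε * ∑ l ∈ F.erase l0, ‖d l‖ ^ 2 ≤ δ * (4 * C * J) := by
    have b1 : ∫ h in (0 : ℝ)..δ,
        ∑ l ∈ F.erase l0, ‖d l‖ ^ 2 * (2 - 2 * Real.cos ((l - l0) * h)) ≤
        ∫ _h in (0 : ℝ)..δ, 4 * C * J := by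
      refine intervalIntegral.integral_mono_on hδ.le ?_ (by simp) step1
      exact (by fun_prop : Continuous fun h : ℝ => ∑ l ∈ F.erase l0,
        ‖d l‖ ^ 2 * (2 - 2 * Real.cos ((l - l0) * h))).intervalIntegrable _ _
    rw [intervalIntegral.integral_finsetSum] at b1
    · simp only [intervalIntegral.integral_const, sub_zero, smul_eq_mul] at b1
      refine le_trans ?_ b1
      rw [Finset.mul_sum]
      refine Finset.sum_le_sum fun l hl => ?_
      rw [intervalIntegral.integral_const_mul, mul_comm ε]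
      exact mul_le_mul_of_nonneg_left (Hε _ (hgap l (hF' hl))) (by positivity)
    · intro l _
      exact (by fun_prop : Continuous fun h : ℝ =>
        ‖d l‖ ^ 2 * (2 - 2 * Real.cos ((l - l0) * h))).intervalIntegrable _ _
  have step3 : ∑ l ∈ F.erase l0, ‖d l‖ ^ 2 ≤ K * J := by
    rw [hK, div_mul_eq_mul_div, le_div_iff₀ hε]
    linarith
  have step4 : T * ‖d0‖ ^ 2 ≤ (2 + 2 * D * K) * J := by
    rw [← integral_single d0 l0 T]
    have c1 := integral_add_sq_le (trig F d) (fun t => -trig (F.erase l0) d t)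
      (continuous_trig _ _) (continuous_trig _ _).neg T hT.le
    have c2 : ∀ t, trig F d t + -trig (F.erase l0) d t = d0 * ex l0 t := by
      intro t; rw [trig_erase F d l0 t]; ring
    simp_rw [c2, norm_neg] at c1
    have c3 := integral_sq_mono (trig F d) (continuous_trig F d) 0 T (T + δ) le_rfl hT.le
      (by linarith)
    have c4 := HD (F.erase l0) d hF'
    have c5 : D * ∑ l ∈ F.erase l0, ‖d l‖ ^ 2 ≤ D * (K * J) := by gcongr
    nlinarith
  rw [sum_erase_split F d l0]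
  have step5 : ‖d0‖ ^ 2 ≤ (2 + 2 * D * K) / T * J := by
    rw [div_mul_eq_mul_div, le_div_iff₀ hT]
    linarith
  linarith

theorem Inv.mono {Λ Λ' : Set ℝ} {T : ℝ} (h : Inv Λ T) (hs : Λ' ⊆ Λ) : Inv Λ' T := by
  obtain ⟨C, hC, H⟩ := h
  exact ⟨C, hC, fun F d hF => H F d (hF.trans hs)⟩

theorem Dir.mono {Λ Λ' : Set ℝ} {T : ℝ} (h : Dir Λ T) (hs : Λ' ⊆ Λ) : Dir Λ' T := by
  obtain ⟨C, hC, H⟩ := h
  exact ⟨C, hC, fun F d hF => H F d (hF.trans hs)⟩

theorem dir_union_finset {Λ : Set ℝ} (hd : ∀ T, 0 < T → Dir Λ T) (G : Finset ℝ) :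
    ∀ T, 0 < T → Dir (Λ ∪ ↑G) T := by
  classical
  induction G using Finset.induction_on with
  | empty => simpa using hd
  | insert l0 G _ ih =>
    intro T hT
    refine ((ih T hT).insert hT l0).mono ?_
    intro l hl
    simp only [Finset.coe_insert, Set.mem_union, Set.mem_insert_iff] at hl ⊢
    tauto

/-- finitely many more frequencies, when `Λ` is locally finite. -/
theorem inv_union_finset {Λ : Set ℝ} {T : ℝ} (hT : 0 < T) (hi : Inv Λ T)
    (hd : ∀ T, 0 < T → Dir Λ T)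
    (hloc : ∀ R : ℝ, (Λ ∩ Set.Icc (-R) R).Finite) (G : Finset ℝ) :
    ∀ δ, 0 < δ → Inv (Λ ∪ ↑G) (T + δ) := by
  classical
  induction G using Finset.induction_on with
  | empty =>
    intro δ hδ
    obtain ⟨C, hC, H⟩ := hi
    refine ⟨C, hC, fun F d hF => (H F d (by simpa using hF)).trans ?_⟩
    gcongr
    exact integral_sq_mono _ (continuous_trig _ _) 0 T _ le_rfl hT.le (by linarith)
  | insert l0 G _ ih =>
    intro δ hδ
    by_cases hmem : l0 ∈ Λ ∪ ↑G
    · refine (ih δ hδ).mono ?_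
      intro l hl
      simp only [Finset.coe_insert, Set.mem_union, Set.mem_insert_iff] at hl
      rcases hl with h | h | h
      · exact Or.inl h
      · rw [h]; exact hmem
      · exact Or.inr h
    · have hfin : ((Λ ∪ ↑G) ∩ Set.Icc (-(|l0| + 1)) (|l0| + 1)).Finite := by
        rw [Set.union_inter_distrib_right]
        exact (hloc _).union (G.finite_toSet.inter_of_left _)
      obtain ⟨γ, hγ, Hγ⟩ : ∃ γ : ℝ, 0 < γ ∧ ∀ l ∈ Λ ∪ ↑G, γ ≤ |l - l0| := by
        have hfin2 := (hfin.image (fun l => |l - l0|)).insert 1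
        obtain ⟨γ, hγm, hγ⟩ := Set.exists_min_image _ id hfin2 ⟨1, Set.mem_insert _ _⟩
        refine ⟨γ, ?_, fun l hl => ?_⟩
        · rcases hγm with h | ⟨l, hl, rfl⟩
          · rw [h]; exact one_pos
          · refine abs_pos.mpr (sub_ne_zero.mpr ?_)
            rintro rfl
            exact hmem hl.1
        · by_cases hl2 : l ∈ Set.Icc (-(|l0| + 1)) (|l0| + 1)
          · exact hγ _ (Set.mem_insert_of_mem _ ⟨l, ⟨hl, hl2⟩, rfl⟩)
          · have h1 : γ ≤ 1 := hγ 1 (Set.mem_insert _ _)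
            have h2 : |l0| + 1 < |l| := by
              by_contra h3
              exact hl2 (abs_le.mp (not_lt.mp h3))
            have h4 := abs_sub_abs_le_abs_sub l l0
            linarith
      have h1 := (ih (δ / 2) (by linarith)).insert
        (dir_union_finset hd G _ (by linarith)) (by linarith) l0 γ (δ / 2) hγ (by linarith) Hγ
      rw [add_assoc, add_halves] at h1
      refine h1.mono ?_
      intro l hl
      simp only [Finset.coe_insert, Set.mem_union, Set.mem_insert_iff] at hl ⊢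
      tauto

/-- adding a linear term `β (t0 + t)`. -/
theorem inv_linear {Λ : Set ℝ} {T : ℝ} (hT : 0 < T) (hi : Inv Λ T) (h0 : (0 : ℝ) ∈ Λ)
    (δ : ℝ) (hδ : 0 < δ) (t0 : ℝ) :
    ∃ C : ℝ, 0 < C ∧ ∀ (F : Finset ℝ) (d : ℝ → ℂ) (β : ℂ), (↑F : Set ℝ) ⊆ Λ →
      ‖β‖ ^ 2 + ∑ l ∈ F, ‖d l‖ ^ 2 ≤
        C * ∫ t in (0 : ℝ)..(T + δ), ‖β * ((t0 + t : ℝ) : ℂ) + trig F d t‖ ^ 2 := by
  classical
  obtain ⟨C, hC, H⟩ := hi
  set M : ℝ := ∫ t in (0 : ℝ)..T, ‖((t0 + t : ℝ) : ℂ)‖ ^ 2 with hM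
  have hM0 : 0 ≤ M := intervalIntegral.integral_nonneg hT.le fun t _ => by positivity
  set K : ℝ := 4 * C / δ ^ 2 with hK
  have hK0 : 0 < K := by positivity
  refine ⟨K + C * (2 + 2 * M * K), by positivity, fun F d β hF => ?_⟩
  set f : ℝ → ℂ := fun t => β * ((t0 + t : ℝ) : ℂ) + trig F d t with hf
  have hfc : Continuous f := by
    have := continuous_trig F d
    simp only [hf]
    fun_prop
  set J : ℝ := ∫ t in (0 : ℝ)..(T + δ), ‖f t‖ ^ 2 with hJ
  have hJ0 : 0 ≤ J := intervalIntegral.integral_nonneg (by linarith) fun t _ => by positivity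
  have step1 : ‖β‖ ^ 2 ≤ K * J := by
    set d' : ℝ → ℂ := fun l => if l = 0 then β * δ else d l * (ex l δ - 1) with hd'
    have hsub : (↑(Insert.insert (0 : ℝ) (F.erase 0)) : Set ℝ) ⊆ Λ := by
      intro l hl
      simp only [Finset.coe_insert, Finset.coe_erase, Set.mem_insert_iff, Set.mem_sdiff] at hl
      rcases hl with h | h
      · rw [h]; exact h0
      · exact hF h.1
    have a1 := H _ d' hsub
    have a2 : ∀ t, trig (Insert.insert (0 : ℝ) (F.erase 0)) d' t = f (t + δ) - 1 * f t := by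
      intro t
      simp only [hf]
      rw [trig_erase F d 0, trig_erase F d 0 t]
      unfold trig
      rw [Finset.sum_insert (Finset.notMem_erase _ _)]
      have : ∑ l ∈ F.erase 0, d' l * ex l t =
          ∑ l ∈ F.erase 0, d l * ex l (t + δ) - ∑ l ∈ F.erase 0, d l * ex l t := by
        rw [← Finset.sum_sub_distrib]
        refine Finset.sum_congr rfl fun l hl => ?_
        simp only [hd', if_neg (Finset.mem_erase.mp hl).1]
        rw [ex_add]; ring
      rw [this]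
      simp only [hd', if_true, ex_zero]
      push_cast; ring
    simp_rw [a2] at a1
    rw [Finset.sum_insert (Finset.notMem_erase _ _)] at a1
    have a3 := integral_shift_le f hfc 1 (by simp) T δ δ hT.le hδ.le le_rfl
    have a4 : ‖d' 0‖ ^ 2 = ‖β‖ ^ 2 * δ ^ 2 := by
      simp [hd', mul_pow]
    have a5 : 0 ≤ ∑ l ∈ F.erase 0, ‖d' l‖ ^ 2 := by positivity
    have a6 : C * ∫ t in (0 : ℝ)..T, ‖f (t + δ) - 1 * f t‖ ^ 2 ≤ C * (4 * J) := by gcongr
    rw [hK, div_mul_eq_mul_div, le_div_iff₀ (by positivity)]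
    linarith
  have step2 : ∑ l ∈ F, ‖d l‖ ^ 2 ≤ C * (2 + 2 * M * K) * J := by
    have c1 := integral_add_sq_le f (fun t => -(β * ((t0 + t : ℝ) : ℂ))) hfc (by fun_prop) T hT.le
    have c2 : ∀ t, f t + -(β * ((t0 + t : ℝ) : ℂ)) = trig F d t := by
      intro t; simp only [hf]; ring
    simp_rw [c2, norm_neg, norm_mul, mul_pow] at c1
    rw [intervalIntegral.integral_const_mul, ← hM] at c1
    have c3 := integral_sq_mono f hfc 0 T (T + δ) le_rfl hT.le (by linarith)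
    have c4 : ‖β‖ ^ 2 * M ≤ K * J * M := by gcongr
    calc _ ≤ _ := H F d hF
      _ ≤ C * ((2 + 2 * M * K) * J) := by
        gcongr
        nlinarith
      _ = _ := by ring
  nlinarith

end Pool.Agent.MP_8d8cf3_an
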