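import Mathlib.Analysis.PSeries
import Pool.Agent.MP_8d8cf3_an.Ingham

/-!
The frequencies `± k² - a k` seen along a line of non-integer speed `a`.
-/

namespace Pool.Agent.MP_8d8cf3_an

open Complex MeasureTheory

/-- the integer behind an index. -/
def idx : ℤ ⊕ ℤ → ℤ := Sum.elim id id

/-- the frequency of an index along a line of speed `a`. -/
noncomputable def freq (a : ℝ) : ℤ ⊕ ℤ → ℝ :=
  Sum.elim (fun k => (k : ℝ) ^ 2 - a * k) (fun k => -(k : ℝ) ^ 2 - a * k)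

theorem sum_image_le {ι : Type} (J : Finset ι) (f : ι → ℝ) (g : ℝ → ℝ) (hg : ∀ x, 0 ≤ g x) :
    ∑ x ∈ J.image f, g x ≤ ∑ j ∈ J, g (f j) := by
  classical
  induction J using Finset.induction_on with
  | empty => simp
  | insert j J hj ih =>
    rw [Finset.image_insert, Finset.sum_insert hj]
    by_cases h : f j ∈ J.image f
    · rw [Finset.insert_eq_of_mem h]; linarith [hg (f j)]
    · rw [Finset.sum_insert h]; linarith

theorem one_div_le_w (x y M : ℝ) (hx : x ≠ 0) (hxy : |x| ≤ y) (hM : 0 < M) (hMy : M ≤ y) :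
    1 / (y * |x|) ≤ (1 / |x| ^ (3 / 2 : ℝ)) / √M := by
  have hx0 : 0 < |x| := abs_pos.mpr hx
  have hy : 0 < y := lt_of_lt_of_le hM hMy
  have e : |x| ^ (3 / 2 : ℝ) = |x| * √|x| := by
    rw [Real.sqrt_eq_rpow, show (3 / 2 : ℝ) = 1 + 1 / 2 by norm_num, Real.rpow_add hx0,
      Real.rpow_one]
  rw [e, div_div]
  have h1 : √|x| * √M ≤ y := by
    rw [← Real.sqrt_mul hx0.le]
    rw [Real.sqrt_le_left hy.le]
    nlinarith
  have h2 : 0 < √|x| * √M := mul_pos (Real.sqrt_pos.mpr hx0) (Real.sqrt_pos.mpr hM)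
  apply one_div_le_one_div_of_le
  · rw [mul_assoc]; positivity
  · rw [mul_assoc, mul_comm y]
    exact mul_le_mul_of_nonneg_left h1 hx0.le

theorem sum_w_le (c : ℝ) : ∃ C : ℝ, 0 < C ∧ ∀ (k : ℤ) (J : Finset ℤ),
    ∑ j ∈ J, 1 / |(k : ℝ) + j + c| ^ (3 / 2 : ℝ) ≤ C := by
  have hs := (Real.summable_one_div_int_add_rpow c (3 / 2)).mpr (by norm_num)
  refine ⟨∑' n : ℤ, 1 / |(n : ℝ) + c| ^ (3 / 2 : ℝ) + 1, by positivity, fun k J => ?_⟩
  have h1 := hs.sum_le_tsum (J.map (Equiv.addLeft k).toEmbedding) (fun n _ => by positivity)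
  rw [Finset.sum_map] at h1
  simp only [Equiv.coe_toEmbedding, Equiv.coe_addLeft, Int.cast_add] at h1
  linarith

theorem sqrt_large (C η : ℝ) (hη : 0 < η) : ∃ N : ℕ, 0 < N ∧ ∀ M : ℝ, N ≤ M → C / √M ≤ η := by
  obtain ⟨N, hN⟩ := exists_nat_gt ((C / η) ^ 2 + 1)
  have hN0 : (0 : ℝ) < N := by nlinarith [sq_nonneg (C / η)]
  refine ⟨N, by exact_mod_cast hN0, fun M hM => ?_⟩
  have hM0 : 0 < √M := Real.sqrt_pos.mpr (by linarith)
  have : C / η ≤ √M := Real.le_sqrt_of_sq_le (by linarith)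
  rw [div_le_iff₀ hη] at this
  rw [div_le_iff₀ hM0]
  linarith

theorem same_sign (a : ℝ) (ha : ∀ n : ℤ, a ≠ n) (η : ℝ) (hη : 0 < η) :
    ∃ N : ℕ, ∀ k : ℤ, (N : ℤ) ≤ |k| → ∀ J : Finset ℤ,
      ∑ j ∈ J, 1 / |((k : ℝ) ^ 2 - a * k) - ((j : ℝ) ^ 2 - a * j)| ≤ η := by
  obtain ⟨C1, hC1, H1⟩ := sum_w_le 0
  obtain ⟨C2, hC2, H2⟩ := sum_w_le (-a)
  obtain ⟨N0, hN0, HN⟩ := sqrt_large (C1 + C2) η hη
  obtain ⟨N1, hN1⟩ := exists_nat_ge |a|
  refine ⟨N0 + N1, fun k hk J => ?_⟩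
  set M : ℝ := |2 * (k : ℝ) - a| with hM
  have hkr : (N0 : ℝ) + N1 ≤ |(k : ℝ)| := by exact_mod_cast hk
  have hMN : (N0 : ℝ) ≤ M := by
    have := abs_sub_abs_le_abs_sub (2 * (k : ℝ)) a
    rw [abs_mul, abs_two] at this
    have h0 : (0 : ℝ) ≤ N0 := Nat.cast_nonneg _
    have h1 : (0 : ℝ) ≤ N1 := Nat.cast_nonneg _
    linarith
  have hM0 : 0 < M := lt_of_lt_of_le (by exact_mod_cast hN0) hMN
  have key : ∀ j : ℤ, 1 / |((k : ℝ) ^ 2 - a * k) - ((j : ℝ) ^ 2 - a * j)| ≤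
      (1 / |((-k : ℤ) : ℝ) + j + 0| ^ (3 / 2 : ℝ)) / √M +
        (1 / |(k : ℝ) + j + -a| ^ (3 / 2 : ℝ)) / √M := by
    intro j
    by_cases hjk : j = k
    · subst hjk
      simp only [sub_self, abs_zero, div_zero]
      positivity
    set u : ℝ := ((-k : ℤ) : ℝ) + j + 0 with hu
    set v : ℝ := (k : ℝ) + j + -a with hv
    have hu0 : u ≠ 0 := by
      intro h
      apply hjk
      have : (j : ℝ) = k := by rw [hu] at h; push_cast at h; linarith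
      exact_mod_cast this
    have hv0 : v ≠ 0 := by
      intro h
      apply ha (k + j)
      rw [hv] at h; push_cast; linarith
    have hup : 0 < |u| := abs_pos.mpr hu0
    have hvp : 0 < |v| := abs_pos.mpr hv0
    have e : |((k : ℝ) ^ 2 - a * k) - ((j : ℝ) ^ 2 - a * j)| = |u| * |v| := by
      rw [← abs_mul, ← abs_neg]; congr 1; rw [hu, hv]; push_cast; ring
    have hMy : M ≤ |u| + |v| := by
      have : 2 * (k : ℝ) - a = v - u := by rw [hu, hv]; push_cast; ring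
      rw [hM, this]
      linarith [abs_sub v u]
    have b1 := one_div_le_w u (|u| + |v|) M hu0 (by linarith) hM0 hMy
    have b2 := one_div_le_w v (|u| + |v|) M hv0 (by linarith) hM0 hMy
    have e2 : 1 / (|u| * |v|) = 1 / ((|u| + |v|) * |u|) + 1 / ((|u| + |v|) * |v|) := by
      field_simp
      ring
    rw [e, e2]
    linarith
  calc _ ≤ _ := Finset.sum_le_sum fun j _ => key j
    _ = (∑ j ∈ J, 1 / |((-k : ℤ) : ℝ) + j + 0| ^ (3 / 2 : ℝ) +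
          ∑ j ∈ J, 1 / |(k : ℝ) + j + -a| ^ (3 / 2 : ℝ)) / √M := by
        rw [Finset.sum_add_distrib, add_div, Finset.sum_div, Finset.sum_div]
    _ ≤ (C1 + C2) / √M := by
        gcongr
        · exact H1 _ _
        · exact H2 _ _
    _ ≤ η := HN M hMN

theorem half_sq_le (a : ℝ) (k : ℤ) (hk : 2 * |a| ≤ |(k : ℝ)|) :
    (k : ℝ) ^ 2 / 2 ≤ (k : ℝ) ^ 2 - a * k := by
  have h1 : a * k ≤ |a| * |(k : ℝ)| := by rw [← abs_mul]; exact le_abs_self _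
  have h2 : (k : ℝ) ^ 2 = |(k : ℝ)| * |(k : ℝ)| := by rw [← sq, sq_abs]
  nlinarith [abs_nonneg (k : ℝ)]

theorem opp_sign (a : ℝ) (η : ℝ) (hη : 0 < η) :
    ∃ N : ℕ, ∀ k : ℤ, (N : ℤ) ≤ |k| → ∀ J : Finset ℤ, (∀ j ∈ J, (N : ℤ) ≤ |j|) →
      ∑ j ∈ J, 1 / |((k : ℝ) ^ 2 - a * k) - (-(j : ℝ) ^ 2 - a * j)| ≤ η := by
  obtain ⟨C1, hC1, H1⟩ := sum_w_le 0
  obtain ⟨N0, hN0, HN⟩ := sqrt_large (2 * C1) η hη
  obtain ⟨N1, hN1⟩ := exists_nat_ge (2 * |a|)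
  refine ⟨N0 + N1, fun k hk J hJ => ?_⟩
  have h0 : (0 : ℝ) < N0 := by exact_mod_cast hN0
  have h1 : (0 : ℝ) ≤ N1 := Nat.cast_nonneg _
  have hkr : (N0 : ℝ) + N1 ≤ |(k : ℝ)| := by exact_mod_cast hk
  have key : ∀ j ∈ J, 1 / |((k : ℝ) ^ 2 - a * k) - (-(j : ℝ) ^ 2 - a * j)| ≤
      2 * ((1 / |((0 : ℤ) : ℝ) + j + 0| ^ (3 / 2 : ℝ)) / √N0) := by
    intro j hj
    have hjr : (N0 : ℝ) + N1 ≤ |(j : ℝ)| := by exact_mod_cast hJ j hj
    have hjp : 0 < |(j : ℝ)| := by linarith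
    have a1 := half_sq_le a k (by linarith)
    have a2 := half_sq_le (-a) j (by rw [abs_neg]; linarith)
    have b1 := one_div_le_w j |(j : ℝ)| N0 (abs_pos.mp hjp) le_rfl h0 (by linarith)
    have e : |(j : ℝ)| * |(j : ℝ)| = (j : ℝ) ^ 2 := by rw [← sq, sq_abs]
    have hj2 : 0 < (j : ℝ) ^ 2 := by rw [← e]; positivity
    rw [e] at b1
    simp only [Int.cast_zero, zero_add, add_zero]
    have a3 : (j : ℝ) ^ 2 / 2 ≤ |((k : ℝ) ^ 2 - a * k) - (-(j : ℝ) ^ 2 - a * j)| := by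
      refine le_trans ?_ (le_abs_self _)
      nlinarith [sq_nonneg (k : ℝ)]
    calc _ ≤ 1 / ((j : ℝ) ^ 2 / 2) := one_div_le_one_div_of_le (by positivity) a3
      _ = 2 * (1 / (j : ℝ) ^ 2) := by field_simp
      _ ≤ _ := by linarith
  calc _ ≤ _ := Finset.sum_le_sum key
    _ = 2 * (∑ j ∈ J, 1 / |((0 : ℤ) : ℝ) + j + 0| ^ (3 / 2 : ℝ)) / √N0 := by
        rw [← Finset.mul_sum, ← Finset.sum_div, mul_div_assoc]
    _ ≤ 2 * C1 / √N0 := by
        gcongr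
        exact H1 _ _
    _ ≤ η := HN _ le_rfl

/-- high frequencies. -/
def high (a : ℝ) (N : ℕ) : Set ℝ := freq a '' {p | (N : ℤ) ≤ |idx p|}

theorem schur_high (a : ℝ) (ha : ∀ n : ℤ, a ≠ n) (η : ℝ) (hη : 0 < η) :
    ∃ N : ℕ, ∀ l ∈ high a N, ∀ F : Finset ℝ, (↑F : Set ℝ) ⊆ high a N →
      ∑ m ∈ F, 1 / |l - m| ≤ η := by
  have ha' : ∀ n : ℤ, -a ≠ n := by
    intro n h
    apply ha (-n)
    push_cast; linarith
  obtain ⟨N1, H1⟩ := same_sign a ha (η / 2) (by linarith)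
  obtain ⟨N2, H2⟩ := same_sign (-a) ha' (η / 2) (by linarith)
  obtain ⟨N3, H3⟩ := opp_sign a (η / 2) (by linarith)
  obtain ⟨N4, H4⟩ := opp_sign (-a) (η / 2) (by linarith)
  refine ⟨N1 + N2 + N3 + N4, ?_⟩
  rintro l ⟨p, hp, rfl⟩ F hF
  obtain ⟨J, hJ, rfl⟩ := Finset.subset_set_image_iff.mp hF
  refine (sum_image_le J (freq a) (fun m => 1 / |freq a p - m|) (fun m => by positivity)).trans ?_
  rw [Finset.sum_sum_eq_sum_toLeft_add_sum_toRight]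
  have hL : ∀ j ∈ J.toLeft, ((N1 + N2 + N3 + N4 : ℕ) : ℤ) ≤ |j| := fun j hj =>
    hJ (Finset.mem_toLeft.mp hj)
  have hR : ∀ j ∈ J.toRight, ((N1 + N2 + N3 + N4 : ℕ) : ℤ) ≤ |j| := fun j hj =>
    hJ (Finset.mem_toRight.mp hj)
  rcases p with k | k
  · have hk : ((N1 + N2 + N3 + N4 : ℕ) : ℤ) ≤ |k| := hp
    have b1 := H1 k (by omega) J.toLeft
    have b2 := H3 k (by omega) J.toRight (fun j hj => by have := hR j hj; omega)
    simp only [freq, Sum.elim_inl, Sum.elim_inr]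
    linarith
  · have hk : ((N1 + N2 + N3 + N4 : ℕ) : ℤ) ≤ |k| := hp
    have b1 := H2 k (by omega) J.toRight
    have b2 := H4 k (by omega) J.toLeft (fun j hj => by have := hL j hj; omega)
    simp only [freq, Sum.elim_inl, Sum.elim_inr]
    have e1 : ∀ j : ℤ, |-(k : ℝ) ^ 2 - a * k - ((j : ℝ) ^ 2 - a * j)| =
        |(k : ℝ) ^ 2 - -a * k - (-(j : ℝ) ^ 2 - -a * j)| := by
      intro j; rw [← abs_neg]; congr 1; ring
    have e2 : ∀ j : ℤ, |-(k : ℝ) ^ 2 - a * k - (-(j : ℝ) ^ 2 - a * j)| =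
        |(k : ℝ) ^ 2 - -a * k - ((j : ℝ) ^ 2 - -a * j)| := by
      intro j; rw [← abs_neg]; congr 1; ring
    simp_rw [e1, e2]
    linarith

/-- the indices with `|k| ≤ N`. -/
noncomputable def box (N : ℕ) : Finset (ℤ ⊕ ℤ) :=
  (Finset.Icc (-(N : ℤ)) N).disjSum (Finset.Icc (-(N : ℤ)) N)

theorem mem_box (N : ℕ) (p : ℤ ⊕ ℤ) : p ∈ box N ↔ |idx p| ≤ N := by
  rcases p with k | k <;> simp [box, idx, abs_le]

theorem idx_le_of_freq (a R : ℝ) (p : ℤ ⊕ ℤ) (h : |freq a p| ≤ R) :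
    |(idx p : ℝ)| ≤ 2 * |a| + 2 * R + 1 := by
  have hR : 0 ≤ R := (abs_nonneg _).trans h
  by_contra hc
  push Not at hc
  have ha := abs_nonneg a
  rcases p with k | k
  · have hc' : 2 * |a| + 2 * R + 1 < |(k : ℝ)| := hc
    have h' : |(k : ℝ) ^ 2 - a * k| ≤ R := h
    have a1 := half_sq_le a k (by linarith)
    have a2 := (abs_le.mp h').2
    have e : |(k : ℝ)| * |(k : ℝ)| = (k : ℝ) ^ 2 := by rw [← sq, sq_abs]
    nlinarith
  · have hc' : 2 * |a| + 2 * R + 1 < |(k : ℝ)| := hc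
    have h' : |-(k : ℝ) ^ 2 - a * k| ≤ R := h
    have a1 := half_sq_le (-a) k (by rw [abs_neg]; linarith)
    have a2 := (abs_le.mp h').1
    have e : |(k : ℝ)| * |(k : ℝ)| = (k : ℝ) ^ 2 := by rw [← sq, sq_abs]
    nlinarith

theorem high_loc (a : ℝ) (N : ℕ) (R : ℝ) : (high a N ∩ Set.Icc (-R) R).Finite := by
  obtain ⟨M, hM⟩ := exists_nat_ge (2 * |a| + 2 * R + 1)
  refine (((box M).image (freq a)).finite_toSet).subset ?_
  rintro l ⟨⟨p, _, rfl⟩, hl⟩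
  have := idx_le_of_freq a R p (abs_le.mpr hl)
  simp only [Finset.coe_image]
  refine ⟨p, ?_, rfl⟩
  rw [Finset.mem_coe, mem_box]
  have h2 : |(idx p : ℝ)| ≤ M := this.trans hM
  exact_mod_cast h2

theorem range_subset (a : ℝ) (N : ℕ) :
    Set.range (freq a) ⊆ high a N ∪ ↑((box N).image (freq a)) := by
  rintro l ⟨p, rfl⟩
  by_cases h : (N : ℤ) ≤ |idx p|
  · exact Or.inl ⟨p, h, rfl⟩
  · right
    simp only [Finset.coe_image]
    exact ⟨p, by rw [Finset.mem_coe, mem_box]; omega, rfl⟩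

theorem dir_all (a : ℝ) (ha : ∀ n : ℤ, a ≠ n) (T : ℝ) (hT : 0 < T) :
    Dir (Set.range (freq a)) T := by
  obtain ⟨N, HN⟩ := schur_high a ha 1 one_pos
  exact (dir_union_finset (fun T hT => dir_of_schur _ 1 zero_le_one HN T hT) _ T hT).mono
    (range_subset a N)

theorem inv_all (a : ℝ) (ha : ∀ n : ℤ, a ≠ n) (T : ℝ) (hT : 0 < T) (t0 : ℝ) :
    ∃ C : ℝ, 0 < C ∧ ∀ (F : Finset ℝ) (d : ℝ → ℂ) (β : ℂ),
      (↑F : Set ℝ) ⊆ Set.range (freq a) →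
      ‖β‖ ^ 2 + ∑ l ∈ F, ‖d l‖ ^ 2 ≤
        C * ∫ t in (0 : ℝ)..T, ‖β * ((t0 + t : ℝ) : ℂ) + trig F d t‖ ^ 2 := by
  obtain ⟨N, HN⟩ := schur_high a ha (T / 9) (by linarith)
  have h1 : Inv (high a N) (T / 3) := inv_of_schur _ _ HN _ (by linarith)
  have h2 := (inv_union_finset (by linarith) h1
    (fun T' hT' => dir_of_schur _ _ (by linarith) HN T' hT') (high_loc a N)
    ((box N).image (freq a)) (T / 3) (by linarith)).mono (range_subset a N)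
  have h3 := inv_linear (by linarith) h2 ⟨Sum.inl 0, by simp [freq]⟩ (T / 3) (by linarith) t0
  have e : T / 3 + T / 3 + T / 3 = T := by ring
  rwa [e] at h3

end Pool.Agent.MP_8d8cf3_an
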