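import Mathlib.RingTheory.PicardGroup
import Mathlib.Algebra.Ring.IsFormallyReal
import Mathlib.MeasureTheory.Function.L2Space
import Pool.Agent.MP_8d8cf3_an.Freq

-- ======== part 0: formerly Pool.Agent.MP_8d8cf3_an.Algebra
section MrgPart0

/-!
Two non-integer speeds determine the coefficients: the finite-dimensional part.
-/

namespace Pool.Agent.MP_8d8cf3_an

open Complex MeasureTheory

/-- grouped coefficient of the frequency `l`. -/
noncomputable def grp (a : ℝ) (J : Finset (ℤ ⊕ ℤ)) (z : ℤ ⊕ ℤ → ℂ) (l : ℝ) : ℂ :=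
  ∑ p ∈ J.filter (fun p => freq a p = l), z p

theorem sum_eq_trig (a : ℝ) (J : Finset (ℤ ⊕ ℤ)) (z : ℤ ⊕ ℤ → ℂ) (t : ℝ) :
    ∑ p ∈ J, z p * ex (freq a p) t = trig (J.image (freq a)) (grp a J z) t := by
  unfold trig grp
  rw [← Finset.sum_fiberwise_of_maps_to (s := J) (t := J.image (freq a)) (g := freq a)
    (fun p hp => Finset.mem_image_of_mem _ hp)]
  refine Finset.sum_congr rfl fun l _ => ?_
  rw [Finset.sum_mul]
  refine Finset.sum_congr rfl fun p hp => ?_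
  rw [(Finset.mem_filter.mp hp).2]

theorem freq_inl_inj (a : ℝ) (ha : ∀ n : ℤ, a ≠ n) (k j : ℤ)
    (h : freq a (Sum.inl k) = freq a (Sum.inl j)) : k = j := by
  by_contra hkj
  have h1 : (k : ℝ) - j ≠ 0 := sub_ne_zero.mpr (by exact_mod_cast hkj)
  have h2 : ((k : ℝ) - j) * ((k : ℝ) + j - a) = 0 := by
    simp only [freq, Sum.elim_inl] at h
    linarith
  rcases mul_eq_zero.mp h2 with h3 | h3
  · exact h1 h3
  · apply ha (k + j); push_cast; linarith

theorem freq_inr_inj (a : ℝ) (ha : ∀ n : ℤ, a ≠ n) (k j : ℤ)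
    (h : freq a (Sum.inr k) = freq a (Sum.inr j)) : k = j := by
  by_contra hkj
  have h1 : (k : ℝ) - j ≠ 0 := sub_ne_zero.mpr (by exact_mod_cast hkj)
  have h2 : ((k : ℝ) - j) * ((k : ℝ) + j + a) = 0 := by
    simp only [freq, Sum.elim_inr] at h
    linarith
  rcases mul_eq_zero.mp h2 with h3 | h3
  · exact h1 h3
  · apply ha (-(k + j)); push_cast; linarith

theorem mixed_small (a : ℝ) (k j : ℤ) (h : freq a (Sum.inl k) = freq a (Sum.inr j)) :
    |(k : ℝ)| ≤ 2 * |a| ∧ |(j : ℝ)| ≤ 2 * |a| := by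
  simp only [freq, Sum.elim_inl, Sum.elim_inr] at h
  have h1 : a * k ≤ |a| * |(k : ℝ)| := by rw [← abs_mul]; exact le_abs_self _
  have h2 : -(a * j) ≤ |a| * |(j : ℝ)| := by rw [← abs_mul]; exact neg_le_abs _
  have e1 : (k : ℝ) ^ 2 = |(k : ℝ)| ^ 2 := (sq_abs _).symm
  have e2 : (j : ℝ) ^ 2 = |(j : ℝ)| ^ 2 := (sq_abs _).symm
  have h3 : |(k : ℝ)| ^ 2 + |(j : ℝ)| ^ 2 ≤ |a| * |(k : ℝ)| + |a| * |(j : ℝ)| := by linarith
  have p1 := abs_nonneg a
  have p2 := abs_nonneg (k : ℝ)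
  have p3 := abs_nonneg (j : ℝ)
  constructor
  · by_contra hc
    push Not at hc
    nlinarith [sq_nonneg (|(j : ℝ)| - |a|), sq_nonneg |(j : ℝ)|]
  · by_contra hc
    push Not at hc
    nlinarith [sq_nonneg (|(k : ℝ)| - |a|), sq_nonneg |(k : ℝ)|]

theorem high_alone (a : ℝ) (ha : ∀ n : ℤ, a ≠ n) (p q : ℤ ⊕ ℤ) (hp : 2 * |a| < |(idx p : ℝ)|)
    (h : freq a q = freq a p) : q = p := by
  rcases p with k | k <;> rcases q with j | j
  · rw [freq_inl_inj a ha _ _ h]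
  · exact absurd (mixed_small a k j h.symm).1 (not_le.mpr hp)
  · exact absurd (mixed_small a j k h).2 (not_le.mpr hp)
  · rw [freq_inr_inj a ha _ _ h]

theorem norm_sum_subsingleton (S : Finset ℤ) (hS : ∀ x ∈ S, ∀ y ∈ S, x = y) (f : ℤ → ℂ) :
    ‖∑ k ∈ S, f k‖ ^ 2 = ∑ k ∈ S, ‖f k‖ ^ 2 := by
  rcases S.eq_empty_or_nonempty with h | ⟨x, hx⟩
  · simp [h]
  · have : S = {x} := Finset.eq_singleton_iff_unique_mem.mpr ⟨hx, fun y hy => hS y hy x hx⟩
    simp [this]

theorem fiber_left (a : ℝ) (ha : ∀ n : ℤ, a ≠ n) (J : Finset (ℤ ⊕ ℤ)) (l : ℝ) :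
    ∀ x ∈ (J.filter (fun p => freq a p = l)).toLeft,
      ∀ y ∈ (J.filter (fun p => freq a p = l)).toLeft, x = y := by
  intro x hx y hy
  have hx' := (Finset.mem_filter.mp (Finset.mem_toLeft.mp hx)).2
  have hy' := (Finset.mem_filter.mp (Finset.mem_toLeft.mp hy)).2
  exact freq_inl_inj a ha _ _ (hx'.trans hy'.symm)

theorem fiber_right (a : ℝ) (ha : ∀ n : ℤ, a ≠ n) (J : Finset (ℤ ⊕ ℤ)) (l : ℝ) :
    ∀ x ∈ (J.filter (fun p => freq a p = l)).toRight,
      ∀ y ∈ (J.filter (fun p => freq a p = l)).toRight, x = y := by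
  intro x hx y hy
  have hx' := (Finset.mem_filter.mp (Finset.mem_toRight.mp hx)).2
  have hy' := (Finset.mem_filter.mp (Finset.mem_toRight.mp hy)).2
  exact freq_inr_inj a ha _ _ (hx'.trans hy'.symm)

/-- the grouped coefficients have at most twice the energy of the coefficients. -/
theorem grp_energy_le (a : ℝ) (ha : ∀ n : ℤ, a ≠ n) (J : Finset (ℤ ⊕ ℤ)) (z : ℤ ⊕ ℤ → ℂ) :
    ∑ l ∈ J.image (freq a), ‖grp a J z l‖ ^ 2 ≤ 2 * ∑ p ∈ J, ‖z p‖ ^ 2 := by
  rw [← Finset.sum_fiberwise_of_maps_to (s := J) (t := J.image (freq a)) (g := freq a)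
    (fun p hp => Finset.mem_image_of_mem _ hp), Finset.mul_sum]
  refine Finset.sum_le_sum fun l _ => ?_
  unfold grp
  rw [Finset.sum_sum_eq_sum_toLeft_add_sum_toRight, Finset.sum_sum_eq_sum_toLeft_add_sum_toRight]
  refine (norm_add_sq_le _ _).trans ?_
  rw [norm_sum_subsingleton _ (fiber_left a ha J l), norm_sum_subsingleton _ (fiber_right a ha J l)]
  linarith

/-- sign of an index. -/
def sgn : ℤ ⊕ ℤ → ℝ := Sum.elim (fun _ => 1) (fun _ => -1)

theorem balance (a : ℝ) (ha : ∀ n : ℤ, a ≠ n) (J : Finset (ℤ ⊕ ℤ)) (z : ℤ ⊕ ℤ → ℂ)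
    (h : ∀ p ∈ J, grp a J z (freq a p) = 0) :
    ∑ p ∈ J, ‖z p‖ ^ 2 * (idx p : ℝ) ^ 2 = a * ∑ p ∈ J, sgn p * ‖z p‖ ^ 2 * idx p := by
  have h1 : ∑ p ∈ J, sgn p * ‖z p‖ ^ 2 * freq a p = 0 := by
    rw [← Finset.sum_fiberwise_of_maps_to (s := J) (t := J.image (freq a)) (g := freq a)
      (fun p hp => Finset.mem_image_of_mem _ hp)]
    refine Finset.sum_eq_zero fun l hl => ?_
    obtain ⟨p, hp, hpl⟩ := Finset.mem_image.mp hl
    have h2 := h p hp
    rw [hpl] at h2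
    have h3 : ∑ q ∈ J.filter (fun q => freq a q = l), sgn q * ‖z q‖ ^ 2 * freq a q =
        (∑ q ∈ J.filter (fun q => freq a q = l), sgn q * ‖z q‖ ^ 2) * l := by
      rw [Finset.sum_mul]
      refine Finset.sum_congr rfl fun q hq => ?_
      rw [(Finset.mem_filter.mp hq).2]
    rw [h3]
    unfold grp at h2
    rw [Finset.sum_sum_eq_sum_toLeft_add_sum_toRight] at h2 ⊢
    simp only [sgn, Sum.elim_inl, Sum.elim_inr, one_mul, neg_mul, Finset.sum_neg_distrib]
    rw [← norm_sum_subsingleton _ (fiber_left a ha J l),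
      ← norm_sum_subsingleton _ (fiber_right a ha J l), eq_neg_of_add_eq_zero_left h2, norm_neg]
    simp
  rw [Finset.mul_sum, ← sub_eq_zero, ← Finset.sum_sub_distrib, ← h1]
  refine Finset.sum_congr rfl fun p _ => ?_
  rcases p with k | k
  · simp only [sgn, idx, freq, Sum.elim_inl, id]; ring
  · simp only [sgn, idx, freq, Sum.elim_inr, id]; ring

/-- uniqueness: there is no cycle. -/
theorem unique_low (a b : ℝ) (ha : ∀ n : ℤ, a ≠ n) (hb : ∀ n : ℤ, b ≠ n) (hab : a ≠ b)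
    (J : Finset (ℤ ⊕ ℤ)) (hJ : Sum.inr 0 ∉ J) (c wa wb : ℤ ⊕ ℤ → ℂ)
    (hwa : ∀ p, ‖wa p‖ = 1) (hwb : ∀ p, ‖wb p‖ = 1)
    (h1 : ∀ p ∈ J, grp a J (fun p => c p * wa p) (freq a p) = 0)
    (h2 : ∀ p ∈ J, grp b J (fun p => c p * wb p) (freq b p) = 0) :
    ∀ p ∈ J, c p = 0 := by
  have e1 := balance a ha J _ h1
  have e2 := balance b hb J _ h2
  simp only [norm_mul, hwa, hwb, mul_one] at e1 e2
  have e3 : ∑ p ∈ J, sgn p * ‖c p‖ ^ 2 * idx p = 0 := by
    have : (a - b) * ∑ p ∈ J, sgn p * ‖c p‖ ^ 2 * idx p = 0 := by linarith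
    exact (mul_eq_zero.mp this).resolve_left (sub_ne_zero.mpr hab)
  rw [e3, mul_zero] at e1
  have e4 := (Finset.sum_eq_zero_iff_of_nonneg (fun p _ => by positivity)).mp e1
  have e5 : ∀ p ∈ J, idx p ≠ 0 → c p = 0 := by
    intro p hp hi
    have := e4 p hp
    have hi' : (idx p : ℝ) ^ 2 ≠ 0 := pow_ne_zero _ (by exact_mod_cast hi)
    have h3 := (mul_eq_zero.mp this).resolve_right hi'
    simpa using h3
  intro p hp
  by_cases hi : idx p = 0
  · have h3 := h1 p hp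
    unfold grp at h3
    rw [Finset.sum_eq_single p] at h3
    · have : wa p ≠ 0 := by intro h; have := hwa p; rw [h] at this; simp at this
      exact (mul_eq_zero.mp h3).resolve_right this
    · intro q hq hqp
      have hqJ := (Finset.mem_filter.mp hq).1
      rw [e5 q hqJ, zero_mul]
      intro hq0
      apply hqp
      rcases p with k | k <;> rcases q with j | j <;> simp only [idx, Sum.elim_inl,
        Sum.elim_inr, id] at hi hq0 <;> subst hi <;> subst hq0 <;> first | rfl | contradiction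
    · intro h
      exact absurd (by simp [hp]) h
  · exact e5 p hp hi

/-- the observation map on a fixed finite index set. -/
noncomputable def obsMap (a : ℝ) (L : Finset (ℤ ⊕ ℤ)) (w : ℤ ⊕ ℤ → ℂ) :
    (L → ℂ) →ₗ[ℂ] (L → ℂ) where
  toFun c := fun p => ∑ q : L, if freq a q = freq a p then c q * w q else 0
  map_add' c c' := by
    funext p
    simp only [Pi.add_apply]
    rw [← Finset.sum_add_distrib]
    refine Finset.sum_congr rfl fun q _ => ?_
    split_ifs <;> ring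
  map_smul' r c := by
    funext p
    simp only [Pi.smul_apply, smul_eq_mul, RingHom.id_apply]
    rw [Finset.mul_sum]
    refine Finset.sum_congr rfl fun q _ => ?_
    split_ifs <;> ring

theorem obsMap_apply (a : ℝ) (L : Finset (ℤ ⊕ ℤ)) (w c : ℤ ⊕ ℤ → ℂ) (p : L) :
    obsMap a L w (fun q => c q) p = grp a L (fun q => c q * w q) (freq a p) := by
  unfold grp
  rw [Finset.sum_filter]
  exact Finset.sum_coe_sort L (fun q => if freq a q = freq a p then c q * w q else 0)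

theorem grp_sq_le (a : ℝ) (J : Finset (ℤ ⊕ ℤ)) (z : ℤ ⊕ ℤ → ℂ) (l : ℝ) :
    ‖grp a J z l‖ ^ 2 ≤ ∑ l ∈ J.image (freq a), ‖grp a J z l‖ ^ 2 := by
  by_cases h : l ∈ J.image (freq a)
  · exact Finset.single_le_sum (f := fun l => ‖grp a J z l‖ ^ 2) (fun l _ => by positivity) h
  · have : grp a J z l = 0 := by
      unfold grp
      refine Finset.sum_eq_zero fun p hp => ?_
      have hp' := Finset.mem_filter.mp hp
      exact absurd (Finset.mem_image.mpr ⟨p, hp'.1, hp'.2⟩) h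
    rw [this, norm_zero]
    simpa using Finset.sum_nonneg fun l _ => by positivity

theorem low_bound (a b : ℝ) (ha : ∀ n : ℤ, a ≠ n) (hb : ∀ n : ℤ, b ≠ n) (hab : a ≠ b)
    (L : Finset (ℤ ⊕ ℤ)) (hL : Sum.inr 0 ∉ L) (wa wb : ℤ ⊕ ℤ → ℂ)
    (hwa : ∀ p, ‖wa p‖ = 1) (hwb : ∀ p, ‖wb p‖ = 1) :
    ∃ K : ℝ, 0 < K ∧ ∀ (c : ℤ ⊕ ℤ → ℂ) (S : ℝ), 0 ≤ S →
      (∀ p ∈ L, ‖grp a L (fun q => c q * wa q) (freq a p)‖ ^ 2 ≤ S) →
      (∀ p ∈ L, ‖grp b L (fun q => c q * wb q) (freq b p)‖ ^ 2 ≤ S) →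
      ∑ p ∈ L, ‖c p‖ ^ 2 ≤ K * S := by
  classical
  set A := (obsMap a L wa).prod (obsMap b L wb) with hA
  have hker : LinearMap.ker A = ⊥ := by
    rw [LinearMap.ker_eq_bot']
    intro c hc
    set c' : ℤ ⊕ ℤ → ℂ := fun q => if h : q ∈ L then c ⟨q, h⟩ else 0 with hc'
    have hcc : c = fun q : L => c' q := by
      funext q; simp [hc']
    have h1 : obsMap a L wa c = 0 := congrArg Prod.fst hc
    have h2 : obsMap b L wb c = 0 := congrArg Prod.snd hc
    have := unique_low a b ha hb hab L hL c' wa wb hwa hwb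
      (fun p hp => by rw [← obsMap_apply a L wa c' ⟨p, hp⟩, ← hcc, h1]; rfl)
      (fun p hp => by rw [← obsMap_apply b L wb c' ⟨p, hp⟩, ← hcc, h2]; rfl)
    funext q
    rw [hcc]
    exact this q q.2
  obtain ⟨K, hK, hanti⟩ := LinearMap.exists_antilipschitzWith A hker
  refine ⟨L.card * (K : ℝ) ^ 2 + 1, by positivity, fun c S hS h1 h2 => ?_⟩
  have h3 : ‖fun q : L => c q‖ ≤ K * ‖A fun q : L => c q‖ := by
    have := hanti.le_mul_dist (fun q : L => c q) 0
    simpa using this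
  have h4 : ‖A fun q : L => c q‖ ≤ √S := by
    rw [hA, Prod.norm_def]
    refine max_le ?_ ?_
    · refine (pi_norm_le_iff_of_nonneg (Real.sqrt_nonneg _)).mpr fun p => ?_
      refine Real.le_sqrt_of_sq_le ?_
      have := obsMap_apply a L wa c p
      change ‖obsMap a L wa (fun q : L => c q) p‖ ^ 2 ≤ S
      rw [this]
      exact h1 p p.2
    · refine (pi_norm_le_iff_of_nonneg (Real.sqrt_nonneg _)).mpr fun p => ?_
      refine Real.le_sqrt_of_sq_le ?_
      have := obsMap_apply b L wb c p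
      change ‖obsMap b L wb (fun q : L => c q) p‖ ^ 2 ≤ S
      rw [this]
      exact h2 p p.2
  have h5 : ∀ p ∈ L, ‖c p‖ ^ 2 ≤ (K : ℝ) ^ 2 * S := by
    intro p hp
    have h6 : ‖c p‖ ≤ K * √S :=
      (norm_le_pi_norm (fun q : L => c q) ⟨p, hp⟩).trans (h3.trans (by gcongr))
    calc _ ≤ (K * √S) ^ 2 := pow_le_pow_left₀ (norm_nonneg _) h6 2
      _ = _ := by rw [mul_pow, Real.sq_sqrt hS]
  have h7 := Finset.sum_le_card_nsmul L _ _ h5
  rw [nsmul_eq_mul] at h7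
  nlinarith

theorem alg_bound (a b : ℝ) (ha : ∀ n : ℤ, a ≠ n) (hb : ∀ n : ℤ, b ≠ n) (hab : a ≠ b)
    (wa wb : ℤ ⊕ ℤ → ℂ) (hwa : ∀ p, ‖wa p‖ = 1) (hwb : ∀ p, ‖wb p‖ = 1) :
    ∃ K : ℝ, 0 < K ∧ ∀ (J : Finset (ℤ ⊕ ℤ)) (c : ℤ ⊕ ℤ → ℂ), Sum.inr 0 ∉ J →
      ∑ p ∈ J, ‖c p‖ ^ 2 ≤
        K * (∑ l ∈ J.image (freq a), ‖grp a J (fun q => c q * wa q) l‖ ^ 2 +
          ∑ l ∈ J.image (freq b), ‖grp b J (fun q => c q * wb q) l‖ ^ 2) := by
  classical
  obtain ⟨N, hN⟩ := exists_nat_ge (2 * |a| + 2 * |b|)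
  set L := (box N).erase (Sum.inr 0) with hLdef
  obtain ⟨K, hK, HK⟩ := low_bound a b ha hb hab L (Finset.notMem_erase _ _) wa wb hwa hwb
  refine ⟨K + 1, by positivity, fun J c hJ => ?_⟩
  set Sa := ∑ l ∈ J.image (freq a), ‖grp a J (fun q => c q * wa q) l‖ ^ 2 with hSa
  set Sb := ∑ l ∈ J.image (freq b), ‖grp b J (fun q => c q * wb q) l‖ ^ 2 with hSb
  have hSa0 : 0 ≤ Sa := by positivity
  have hSb0 : 0 ≤ Sb := by positivity
  have pa := abs_nonneg a
  have pb := abs_nonneg b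
  have hhigh : ∀ p ∈ J, p ∉ L → 2 * |a| + 2 * |b| < |(idx p : ℝ)| := by
    intro p hp hpL
    have h1 : p ∉ box N := by
      intro h
      exact hpL (Finset.mem_erase.mpr ⟨fun h' => hJ (h' ▸ hp), h⟩)
    rw [mem_box, not_le] at h1
    have h2 : (N : ℝ) < |(idx p : ℝ)| := by exact_mod_cast h1
    linarith
  set c' : ℤ ⊕ ℤ → ℂ := fun q => if q ∈ J then c q else 0 with hc'
  have hgrp : ∀ (s : ℝ), (∀ n : ℤ, s ≠ n) → 2 * |s| ≤ 2 * |a| + 2 * |b| → ∀ w : ℤ ⊕ ℤ → ℂ,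
      ∀ p ∈ L, grp s L (fun q => c' q * w q) (freq s p) =
        grp s J (fun q => c q * w q) (freq s p) := by
    intro s hs hsab w p hp
    unfold grp
    rw [Finset.sum_filter, Finset.sum_filter]
    have e1 : ∑ q ∈ L, (if freq s q = freq s p then c' q * w q else 0) =
        ∑ q ∈ L ∩ J, (if freq s q = freq s p then c q * w q else 0) := by
      rw [← Finset.sum_subset (s₁ := L ∩ J) Finset.inter_subset_left]
      · refine Finset.sum_congr rfl fun q hq => ?_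
        simp only [hc', if_pos (Finset.mem_inter.mp hq).2]
      · intro q hq hq'
        have : q ∉ J := fun h => hq' (Finset.mem_inter.mpr ⟨hq, h⟩)
        simp [hc', this]
    rw [e1]
    refine Finset.sum_subset Finset.inter_subset_right fun q hq hq' => ?_
    have hqL : q ∉ L := fun h => hq' (Finset.mem_inter.mpr ⟨h, hq⟩)
    rw [if_neg]
    intro h
    have := high_alone s hs q p (by linarith [hhigh q hq hqL]) h.symm
    exact hqL (this ▸ hp)
  have low := HK c' (Sa + Sb) (by positivity)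
    (fun p hp => by
      rw [hgrp a ha (by linarith) wa p hp]
      linarith [grp_sq_le a J (fun q => c q * wa q) (freq a p)])
    (fun p hp => by
      rw [hgrp b hb (by linarith) wb p hp]
      linarith [grp_sq_le b J (fun q => c q * wb q) (freq b p)])
  have low2 : ∑ p ∈ J.filter (fun p => p ∈ L), ‖c p‖ ^ 2 ≤ ∑ p ∈ L, ‖c' p‖ ^ 2 := by
    have : ∑ p ∈ J.filter (fun p => p ∈ L), ‖c p‖ ^ 2 =
        ∑ p ∈ J.filter (fun p => p ∈ L), ‖c' p‖ ^ 2 := by
      refine Finset.sum_congr rfl fun p hp => ?_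
      simp only [hc', if_pos (Finset.mem_filter.mp hp).1]
    rw [this]
    exact Finset.sum_le_sum_of_subset_of_nonneg (fun p hp => (Finset.mem_filter.mp hp).2)
      (fun p _ _ => by positivity)
  have hi : ∑ p ∈ J.filter (fun p => ¬ p ∈ L), ‖c p‖ ^ 2 ≤ Sa := by
    have e1 : ∑ p ∈ J.filter (fun p => ¬ p ∈ L), ‖c p‖ ^ 2 =
        ∑ l ∈ (J.filter (fun p => ¬ p ∈ L)).image (freq a),
          ‖grp a J (fun q => c q * wa q) l‖ ^ 2 := by
      rw [Finset.sum_image]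
      · refine Finset.sum_congr rfl fun p hp => ?_
        have hp' := Finset.mem_filter.mp hp
        unfold grp
        rw [Finset.sum_eq_single p]
        · rw [norm_mul, hwa, mul_one]
        · intro q hq hqp
          exact absurd (high_alone a ha p q (by linarith [hhigh p hp'.1 hp'.2])
            (Finset.mem_filter.mp hq).2) hqp
        · intro h
          exact absurd (by simp [hp'.1]) h
      · intro p hp q _ hpq
        have hp' := Finset.mem_filter.mp hp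
        exact (high_alone a ha p q (by linarith [hhigh p hp'.1 hp'.2]) hpq.symm).symm
    rw [e1]
    exact Finset.sum_le_sum_of_subset_of_nonneg
      (Finset.image_subset_image (Finset.filter_subset _ _)) (fun p _ _ => by positivity)
  rw [← Finset.sum_filter_add_sum_filter_not J (fun p => p ∈ L)]
  nlinarith

end Pool.Agent.MP_8d8cf3_an

end MrgPart0

-- ======== part 1: formerly Pool.Agent.MP_8d8cf3_an.L2Limit
section MrgPart1

/-!
Limits in `L²(0,T)` of Cauchy sequences of continuous functions.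
-/

namespace Pool.Agent.MP_8d8cf3_an

open MeasureTheory Filter Topology

theorem norm_sq_L2 (μ : Measure ℝ) (F : Lp ℂ 2 μ) : ‖F‖ ^ 2 = ∫ x, ‖F x‖ ^ 2 ∂μ := by
  rw [← real_inner_self_eq_norm_sq, L2.inner_def]
  simp_rw [real_inner_self_eq_norm_sq]

theorem memLp_of_continuous (f : ℝ → ℂ) (hf : Continuous f) (T : ℝ) :
    MemLp f 2 (volume.restrict (Set.Ioc 0 T)) := by
  rw [memLp_two_iff_integrable_sq_norm hf.aestronglyMeasurable]
  exact ((by fun_prop : Continuous fun t => ‖f t‖ ^ 2).integrableOn_Icc).mono_set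
    Set.Ioc_subset_Icc_self

theorem exists_L2_limit (s : ℕ → ℝ → ℂ) (hs : ∀ N, Continuous (s N)) (T : ℝ) (hT : 0 ≤ T)
    (hc : ∀ ε : ℝ, 0 < ε → ∃ N0 : ℕ, ∀ N, N0 ≤ N →
      ∫ t in (0 : ℝ)..T, ‖s N t - s N0 t‖ ^ 2 ≤ ε) :
    ∃ g : ℝ → ℂ, MemLp g 2 (volume.restrict (Set.Ioc 0 T)) ∧
      Tendsto (fun N => ∫ t in (0 : ℝ)..T, ‖s N t - g t‖ ^ 2) atTop (𝓝 0) ∧
      Tendsto (fun N => ∫ t in (0 : ℝ)..T, ‖s N t‖ ^ 2) atTop
        (𝓝 (∫ t in (0 : ℝ)..T, ‖g t‖ ^ 2)) := by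
  set μ : Measure ℝ := volume.restrict (Set.Ioc 0 T) with hμ
  set S : ℕ → Lp ℂ 2 μ := fun N => (memLp_of_continuous (s N) (hs N) T).toLp (s N) with hS
  have hSae : ∀ N, S N =ᵐ[μ] s N := fun N => MemLp.coeFn_toLp _
  have hd : ∀ (N : ℕ) (G : Lp ℂ 2 μ) (g : ℝ → ℂ), G =ᵐ[μ] g →
      ‖S N - G‖ ^ 2 = ∫ t in (0 : ℝ)..T, ‖s N t - g t‖ ^ 2 := by
    intro N G g hG
    rw [norm_sq_L2, intervalIntegral.integral_of_le hT]
    refine integral_congr_ae ?_
    filter_upwards [Lp.coeFn_sub (S N) G, hSae N, hG] with x h1 h2 h3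
    rw [h1, Pi.sub_apply, h2, h3]
  have hcau : CauchySeq S := by
    rw [Metric.cauchySeq_iff']
    intro ε hε
    obtain ⟨N0, H⟩ := hc ((ε / 2) ^ 2) (by positivity)
    refine ⟨N0, fun N hN => ?_⟩
    have h1 := H N hN
    rw [← hd N (S N0) (s N0) (hSae N0)] at h1
    rw [dist_eq_norm]
    have := (pow_le_pow_iff_left₀ (norm_nonneg _) (by positivity) two_ne_zero).mp h1
    linarith
  obtain ⟨G, hG⟩ := cauchySeq_tendsto_of_complete hcau
  refine ⟨G, Lp.memLp G, ?_, ?_⟩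
  · simp_rw [← hd _ G G (EventuallyEq.refl _ _)]
    have := (tendsto_iff_norm_sub_tendsto_zero.mp hG).pow 2
    simpa using this
  · have h1 : ∀ N, ∫ t in (0 : ℝ)..T, ‖s N t‖ ^ 2 = ‖S N‖ ^ 2 := by
      intro N
      rw [norm_sq_L2, intervalIntegral.integral_of_le hT]
      refine integral_congr_ae ?_
      filter_upwards [hSae N] with x h2
      rw [h2]
    simp_rw [h1]
    rw [intervalIntegral.integral_of_le hT, ← norm_sq_L2]
    exact hG.norm.pow 2

end Pool.Agent.MP_8d8cf3_an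

end MrgPart1

-- marker of a merged file
example : 731051 + 518310 = 731051 + 518310 := rfl
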